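import Pool.Agent.Y105.RS.StmC

/-! Project RS: rotation of words (RSW-ROT, helper784) -/

set_option autoImplicit false

open Finset Equiv

namespace Pool.Agent.Y784.RS

open Pool.Agent.Y105.RS

lemma ofFn_rot {α : Type*} {M : ℕ} [NeZero M] (f : Fin M → α) (j : Fin M) :
    List.ofFn (fun i => f (i + j)) = (List.ofFn f).rotate j := by
  apply List.ext_getElem
  · simp
  · intro i h1 h2
    rw [List.getElem_ofFn, List.getElem_rotate, List.getElem_ofFn]
    congr 1
    apply Fin.ext
    rw [Fin.val_add]
    simp

lemma wp_rot {V : Type} [DecidableEq V] {M : ℕ} [NeZero M] (w : Fin M → Lt V) (j : Fin M) :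
    wp (fun i => w (i + j)) = (pre w j)⁻¹ * wp w * pre w j := by
  have h1 : wp (fun i => w (i + j)) = ((List.ofFn fun i => st (w i)).rotate j).prod := by
    unfold wp
    rw [← ofFn_rot (fun i => st (w i)) j]
  have h2 : wp w = ((List.ofFn fun i => st (w i)).take j).prod *
      ((List.ofFn fun i => st (w i)).drop j).prod := by
    unfold wp
    rw [← List.prod_append, List.take_append_drop]
  have h3 : pre w j = ((List.ofFn fun i => st (w i)).take j).prod := rfl
  rw [h1, h2, h3, List.rotate_eq_drop_append_take (by simpa using j.2.le), List.prod_append]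
  group

theorem rot : S_ROT := by
  intro V _ _ p M j Ψ
  have : NeZero M := ⟨by have := j.2; omega⟩
  unfold mean
  let e : (Fin M → Lt V) ≃ (Fin M → Lt V) := Equiv.arrowCongr (Equiv.addRight j).symm (Equiv.refl _)
  have he : ∀ w : Fin M → Lt V, e w = fun i => w (i + j) := by
    intro w
    funext i
    rfl
  rw [← Equiv.sum_comp e (fun w : Fin M → Lt V => (∏ i, p (w i).1.1 (w i).1.2 / 2) * Ψ (wp w))]
  refine Finset.sum_congr rfl fun w _ => ?_
  rw [he, wp_rot]
  congr 1
  exact (Equiv.prod_comp (Equiv.addRight j) (fun i => p (w i).1.1 (w i).1.2 / 2)).symm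

end Pool.Agent.Y784.RS
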