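import Pool.Agent.Y105.RS.StmB

/-! Project RS: translation invariance on the torus (RSW-TRV, helper784) -/

set_option autoImplicit false

open Finset Equiv

namespace Pool.Agent.Y784.RS

open Pool.Agent.Y105.RS
open Pool.Agent.TH268.PD (law)
open Pool.Agent.W805.LR (stirMass ringSum)

section conj

variable {V : Type} [Fintype V] [DecidableEq V]

theorem ring_conj (σ : Perm V) {J : V → V → ℝ} (hJ : ∀ x y, J (σ x) (σ y) = J x y) (m : ℕ) :
    ∀ g : Perm V, ringSum J m (σ * g * σ⁻¹) = ringSum J m g := by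
  induction m with
  | zero =>
    intro g
    have h : σ * g * σ⁻¹ = 1 ↔ g = 1 := by rw [mul_inv_eq_one, mul_eq_left]
    simp only [ringSum, h]
  | succ m ih =>
    intro g
    simp only [ringSum]
    rw [← Equiv.sum_comp σ]
    refine Finset.sum_congr rfl fun x _ => ?_
    rw [← Equiv.sum_comp σ]
    refine Finset.sum_congr rfl fun y _ => ?_
    have h : swap (σ x) (σ y) * (σ * g * σ⁻¹) = σ * (swap x y * g) * σ⁻¹ := by
      rw [swap_apply_apply]
      group
    rw [h, ih, hJ]

theorem law_conj (σ : Perm V) {J : V → V → ℝ} (hJ : ∀ x y, J (σ x) (σ y) = J x y) (t : ℝ)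
    (g : Perm V) : law J t (σ * g * σ⁻¹) = law J t g := by
  unfold law
  congr 1
  unfold stirMass
  simp only [ring_conj σ hJ]

theorem cl_conj (σ g : Perm V) (v : V) : cl (σ * g * σ⁻¹) (σ v) = cl g v := by
  unfold cl
  symm
  refine Nat.card_congr (σ.subtypeEquiv fun w => ?_)
  rw [Perm.sameCycle_conj]
  simp

open Classical in
theorem cl_alike {J : V → V → ℝ} (htr : ∀ v w : V, ∃ σ : Perm V, σ v = w ∧
    ∀ x y, J (σ x) (σ y) = J x y) (t : ℝ) (K : ℕ) (v : V) :
    ∑ g, law J t g * (if cl g v ≤ K then 1 else 0) = ∑ g, law J t g * small K g := by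
  have key : ∀ w : V, ∑ g, law J t g * (if cl g w ≤ K then (1 : ℝ) else 0) =
      ∑ g, law J t g * (if cl g v ≤ K then (1 : ℝ) else 0) := by
    intro w
    obtain ⟨σ, hσ, hJσ⟩ := htr v w
    rw [← Equiv.sum_comp (MulAut.conj σ).toEquiv]
    refine Finset.sum_congr rfl fun g _ => ?_
    have e1 : (MulAut.conj σ).toEquiv g = σ * g * σ⁻¹ := rfl
    rw [e1, law_conj σ hJσ, ← hσ, cl_conj]
  have hn : (Fintype.card V : ℝ) ≠ 0 := by
    have : Nonempty V := ⟨v⟩
    exact_mod_cast Fintype.card_ne_zero
  have h1 : (Fintype.card V : ℝ) * ∑ g, law J t g * small K g =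
      ∑ w : V, ∑ g, law J t g * (if cl g w ≤ K then (1 : ℝ) else 0) := by
    rw [Finset.sum_comm, Finset.mul_sum]
    refine Finset.sum_congr rfl fun g _ => ?_
    rw [← Finset.mul_sum, Finset.sum_boole]
    unfold small
    rw [Nat.card_eq_fintype_card, Fintype.card_subtype]
    field_simp
  rw [Finset.sum_congr rfl fun w _ => key w, Finset.sum_const, nsmul_eq_mul,
    Finset.card_univ] at h1
  exact (mul_left_cancel₀ hn h1).symm

end conj

theorem trv : S_TRV := by
  classical
  intro d L K _ t v
  have h := cl_alike (J := nnR d L) (fun v w => by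
    refine ⟨Equiv.addRight (w - v), by simp, fun x y => ?_⟩
    have e1 : ∀ (x y : Fin d → ZMod L) (i : Fin d),
        (Equiv.addRight (w - v)) y = (Equiv.addRight (w - v)) x + Pi.single i 1 ↔
          y = x + Pi.single i 1 := by
      intro x y i
      simp only [Equiv.coe_addRight]
      rw [add_right_comm, add_left_inj]
    unfold nnR
    simp only [e1]) t K v
  convert h using 3

end Pool.Agent.Y784.RS
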