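import Pool.Agent.Y105.RS.StmC
import Pool.Agent.Y314.RS.Inv

/-! Project RS: induced permutations of tuples (RSW-TUP, helper784) -/

set_option autoImplicit false

open Finset Equiv

namespace Pool.Agent.Y784.RS

open Pool.Agent.Y105.RS Pool.Agent.Y314.RS

lemma desc_lower (n k : ℕ) (hn : 0 < n) :
    1 - (k : ℝ) ^ 2 / n ≤ (n.descFactorial k : ℝ) / (n : ℝ) ^ k := by
  have hn' : (0 : ℝ) < n := by exact_mod_cast hn
  induction k with
  | zero => simp
  | succ k ih =>
    have h0 : (0 : ℝ) ≤ (n.descFactorial k : ℝ) / (n : ℝ) ^ k := by positivity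
    have h1 : (n.descFactorial k : ℝ) / (n : ℝ) ^ k ≤ 1 := by
      rw [div_le_one (by positivity)]
      exact_mod_cast Nat.descFactorial_le_pow n k
    by_cases hk : k ≤ n
    · rw [Nat.descFactorial_succ, Nat.cast_mul, Nat.cast_sub hk, pow_succ (n : ℝ) k]
      have e1 : ((n : ℝ) - k) * (n.descFactorial k : ℝ) / ((n : ℝ) ^ k * n) =
          (n.descFactorial k : ℝ) / (n : ℝ) ^ k -
            (n.descFactorial k : ℝ) / (n : ℝ) ^ k * (k / n) := by
        field_simp
      rw [e1]
      have h2 : (n.descFactorial k : ℝ) / (n : ℝ) ^ k * (k / n) ≤ 1 * (k / n) :=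
        mul_le_mul_of_nonneg_right h1 (by positivity)
      have h3 : ((k + 1 : ℕ) : ℝ) ^ 2 / n = (k : ℝ) ^ 2 / n + (2 * k + 1) / n := by
        push_cast
        field_simp
        ring
      have h4 : (k : ℝ) / n ≤ (2 * k + 1) / n := by
        apply div_le_div_of_nonneg_right _ hn'.le
        have : (0 : ℝ) ≤ k := Nat.cast_nonneg k
        linarith
      rw [h3]
      linarith
    · have h2 : (1 : ℝ) ≤ ((k + 1 : ℕ) : ℝ) ^ 2 / n := by
        rw [le_div_iff₀ hn']
        have h3 : (n : ℝ) ≤ k := by exact_mod_cast (not_le.mp hk).le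
        have h4 : (0 : ℝ) ≤ k := Nat.cast_nonneg k
        push_cast
        nlinarith
      have h3 : (0 : ℝ) ≤ (n.descFactorial (k + 1) : ℝ) / (n : ℝ) ^ (k + 1) := by positivity
      linarith

theorem sum_tup {V : Type} [Fintype V] [DecidableEq V] (k : ℕ) (g : Perm V) :
    ∑ π, tup k g π = ((Fintype.card V).descFactorial k : ℝ) / (Fintype.card V : ℝ) ^ k := by
  classical
  unfold tup
  rw [← Finset.sum_div, ← Nat.cast_sum]
  congr 2
  let F : (Fin k → V) → Perm (Fin k) := fun b =>
    if h : Function.Injective b then (ind_exists g b h).choose else 1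
  have hF : ∀ b (h : Function.Injective b), Ind g b (F b) := by
    intro b h
    simp only [F, dif_pos h]
    exact (ind_exists g b h).choose_spec
  have h1 : (univ.filter (fun b : Fin k → V => Function.Injective b)).card =
      ∑ π : Perm (Fin k), ((univ.filter (fun b : Fin k → V => Function.Injective b)).filter
        (fun b => F b = π)).card :=
    Finset.card_eq_sum_card_fiberwise (fun _ _ => Finset.mem_univ _)
  have h2 : (univ.filter (fun b : Fin k → V => Function.Injective b)).card =
      (Fintype.card V).descFactorial k := by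
    rw [← Fintype.card_subtype, Fintype.card_congr (Equiv.subtypeInjectiveEquivEmbedding _ _),
      Fintype.card_embedding_eq, Fintype.card_fin]
  rw [← h2, h1]
  refine Finset.sum_congr rfl fun π _ => ?_
  rw [Nat.card_eq_fintype_card, Fintype.card_subtype]
  congr 1
  ext b
  simp only [Finset.mem_filter, Finset.mem_univ, true_and]
  constructor
  · rintro ⟨h3, h4⟩
    exact ⟨h3, ind_unique g b h3 _ _ (hF b h3) h4⟩
  · rintro ⟨h3, h4⟩
    exact ⟨h3, h4 ▸ hF b h3⟩

theorem tup_all : S_TUP := by
  intro V _ _ _ k g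
  have hn : 0 < Fintype.card V := Fintype.card_pos
  have hn' : (0 : ℝ) < Fintype.card V := by exact_mod_cast hn
  refine ⟨fun π => by unfold tup; positivity, ?_, ?_⟩
  · rw [sum_tup, div_le_one (by positivity)]
    exact_mod_cast Nat.descFactorial_le_pow _ k
  · rw [sum_tup]
    exact desc_lower _ k hn

end Pool.Agent.Y784.RS
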